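import Pool.Agent.EGF.StmtsU

/-! Squad EGF, block U, row CGA: the codegree of the pairs of a system is not small. -/

set_option autoImplicit false

open Finset

namespace Pool.Agent.EGF.H68

/-- the numerical part -/
theorem cga_num (M t E r KE COD : ℝ) (hM : 0 < M) (hM1 : M ≤ 1) (ht : 1 ≤ t) (hE : 0 < E)
    (hr1 : 1 ≤ r) (hr2 : 1 / 10 ≤ r * M) (hr3 : (r - 1) * M ≤ 1 / 10)
    (hKE : KE ≤ M ^ 4 / 10 ^ 6 * t) (hEK : E ≤ KE)
    (H : (1 - 1 / 200) * M * t ≤ r * COD + (1 + 1 / 200) * M *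
      (t - r * ((1 - 1 / 200) * M * t) + r * (r - 1) / 2 *
        (t * (((1 + 1 / 200) * M) ^ 2 + 3 * (E / t + E * (1 / t) / 1)))) + KE +
      E * (1 / t) * t) :
    4 / 5 * M ^ 2 * t ≤ COD := by
  have ht0 : 0 < t := by linarith
  by_contra hcon
  rw [not_le] at hcon
  obtain ⟨e, he⟩ : ∃ e, e = E / t := ⟨_, rfl⟩
  have he0 : 0 < e := by rw [he]; positivity
  have hEe : E = e * t := by rw [he]; field_simp
  have heζ : e ≤ M ^ 4 / 10 ^ 6 := by
    rw [he, div_le_iff₀ ht0]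
    linarith
  have h1 : E * (1 / t) * t = E := by field_simp
  have h2 : E / t + E * (1 / t) / 1 = 2 * e := by rw [he]; ring
  rw [h1, h2] at H
  have hq : 0 < r * M ^ 2 := by positivity
  have f0 : r * COD ≤ r * (4 / 5 * M ^ 2 * t) :=
    mul_le_mul_of_nonneg_left hcon.le (by linarith)
  have f1 : M ≤ 10 * (r * M ^ 2) := by nlinarith
  have f4 : M ^ 4 / 10 ^ 6 ≤ (r * M ^ 2) / 10 ^ 6 := by
    have h3 : M ^ 4 ≤ r * M ^ 2 := by
      have h4 : M ^ 2 ≤ 1 := by nlinarith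
      have h5 : 0 ≤ M ^ 2 := sq_nonneg M
      nlinarith
    exact div_le_div_of_nonneg_right h3 (by norm_num)
  have f5 : ((1 + 1 / 200) * M) ^ 2 + 3 * (2 * e) ≤ 10101 / 10000 * M ^ 2 := by
    have h4 : M ^ 4 ≤ M ^ 2 := by
      have h5 : M ^ 2 ≤ 1 := by nlinarith
      have h6 : 0 ≤ M ^ 2 := sq_nonneg M
      nlinarith
    have h7 : 0 ≤ M ^ 2 := sq_nonneg M
    nlinarith
  have f3 : (1 + 1 / 200) * M * (r * (r - 1) / 2 * (((1 + 1 / 200) * M) ^ 2 + 3 * (2 * e))) ≤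
      (51 / 1000) * (r * M ^ 2) := by
    have h4 : (1 + 1 / 200) * M * (r * (r - 1) / 2 * (((1 + 1 / 200) * M) ^ 2 + 3 * (2 * e))) =
        (201 / 400) * (((r - 1) * M) * (r * (((1 + 1 / 200) * M) ^ 2 + 3 * (2 * e)))) := by
      ring
    have h5 : 0 ≤ r * (((1 + 1 / 200) * M) ^ 2 + 3 * (2 * e)) := by positivity
    have h6 : ((r - 1) * M) * (r * (((1 + 1 / 200) * M) ^ 2 + 3 * (2 * e))) ≤
        1 / 10 * (r * (((1 + 1 / 200) * M) ^ 2 + 3 * (2 * e))) :=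
      mul_le_mul_of_nonneg_right hr3 h5
    have h7 : r * (((1 + 1 / 200) * M) ^ 2 + 3 * (2 * e)) ≤ r * (10101 / 10000 * M ^ 2) :=
      mul_le_mul_of_nonneg_left f5 (by linarith)
    rw [h4]
    nlinarith
  -- everything divided by `t`
  have g : (1 - 1 / 200) * M ≤ r * (4 / 5 * M ^ 2) + (1 + 1 / 200) * M -
      (1 + 1 / 200) * M * (r * ((1 - 1 / 200) * M)) +
      (1 + 1 / 200) * M * (r * (r - 1) / 2 * (((1 + 1 / 200) * M) ^ 2 + 3 * (2 * e))) +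
      M ^ 4 / 10 ^ 6 + e := by
    have h3 : (1 - 1 / 200) * M * t ≤ (r * (4 / 5 * M ^ 2) + (1 + 1 / 200) * M -
        (1 + 1 / 200) * M * (r * ((1 - 1 / 200) * M)) +
        (1 + 1 / 200) * M * (r * (r - 1) / 2 * (((1 + 1 / 200) * M) ^ 2 + 3 * (2 * e))) +
        M ^ 4 / 10 ^ 6 + e) * t := by
      have h4 : (r * (4 / 5 * M ^ 2) + (1 + 1 / 200) * M -
        (1 + 1 / 200) * M * (r * ((1 - 1 / 200) * M)) +
        (1 + 1 / 200) * M * (r * (r - 1) / 2 * (((1 + 1 / 200) * M) ^ 2 + 3 * (2 * e))) +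
        M ^ 4 / 10 ^ 6 + e) * t = r * (4 / 5 * M ^ 2 * t) + (1 + 1 / 200) * M *
      (t - r * ((1 - 1 / 200) * M * t) + r * (r - 1) / 2 *
        (t * (((1 + 1 / 200) * M) ^ 2 + 3 * (2 * e)))) + M ^ 4 / 10 ^ 6 * t + e * t := by
        ring
      rw [h4, ← hEe]
      linarith
    exact le_of_mul_le_mul_right h3 ht0
  have g2 : (1 + 1 / 200) * M * (r * ((1 - 1 / 200) * M)) = (39999 / 40000) * (r * M ^ 2) := by
    ring
  rw [g2] at g
  have g3 : r * (4 / 5 * M ^ 2) = 4 / 5 * (r * M ^ 2) := by ring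
  rw [g3] at g
  linarith

theorem cga (uba : UbaStmt) (tpm : TpmStmt) : CgaStmt := by
  intro X Y _ _ A P A1 B I N f β E M K T hf hM hM1 hE hK hsat hsy hIB hβ hβT hEK h1 h2
  have hT : (1 : ℝ) ≤ T := by exact_mod_cast hsy.pos
  have hT0 : (0 : ℝ) < T := by linarith
  obtain ⟨r, hr⟩ : ∃ r : ℕ, r = ⌈1 / (10 * M)⌉₊ := ⟨_, rfl⟩
  rw [← hr] at hEK
  have hr0 : 1 ≤ r := by
    rw [hr]
    exact Nat.ceil_pos.2 (by positivity)
  have hr1 : (1 : ℝ) ≤ r := by exact_mod_cast hr0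
  have hr2 : 1 / (10 * M) ≤ (r : ℝ) := by
    rw [hr]
    exact Nat.le_ceil _
  have hr3 : (r : ℝ) < 1 / (10 * M) + 1 := by
    rw [hr]
    exact Nat.ceil_lt_add_one (by positivity)
  have hr2' : 1 / 10 ≤ (r : ℝ) * M := by
    have h3 := mul_le_mul_of_nonneg_right hr2 hM.le
    have h4 : 1 / (10 * M) * M = 1 / 10 := by field_simp
    rw [h4] at h3
    exact h3
  have hr3' : ((r : ℝ) - 1) * M ≤ 1 / 10 := by
    have h3 : (r : ℝ) - 1 ≤ 1 / (10 * M) := by linarith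
    have h4 := mul_le_mul_of_nonneg_right h3 hM.le
    have h5 : 1 / (10 * M) * M = 1 / 10 := by field_simp
    rw [h5] at h4
    exact h4
  have hKr : E ≤ E * K ^ r := le_mul_of_one_le_right hE.le (one_le_pow₀ hK)
  have hub : Upb I β A (fun b a => f a b) ((1 + 1 / 200) * M) E (E * (1 / T)) :=
    uba X Y A B I f E ((1 + 1 / 200) * M) (1 / T) β hf hE (by positivity) hsat hIB hβ hβT
  have H := tpm Y X I β A P A1 N (fun b a => f a b) ((1 + 1 / 200) * M) E (E * (1 / T)) K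
    ((1 - 1 / 200) * M) ((1 - 1 / 200) * M) T r (fun b a => hf a b) hβ (by positivity)
    (by linarith) hE.le (by positivity) hub hsy hr0 h1 h2
  refine cga_num M T E r (E * K ^ r) _ hM hM1 hT hE hr1 hr2' hr3' hEK hKr ?_
  rw [div_one]
  exact H

end Pool.Agent.EGF.H68
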