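import Pool.Agent.EGF.StmtsQ

/-! Squad EGF (MP_1090a0_co), row CL8 (helper68): everything after the flat set. -/

set_option autoImplicit false

open Finset Filter

namespace Pool.Agent.EGF.H68

open Pool.Agent.EGF

theorem log16' : Real.log 16 ≤ 3 := by
  have h : (16 : ℝ) = 2 ^ 4 := by norm_num
  rw [h, Real.log_pow]
  have := Real.log_two_lt_d9
  push_cast
  linarith

theorem log_bound' {N a k e : ℕ} (hN : 0 < N) (h : (N : ℝ) ≤ 16 * ((k : ℝ) + 1) ^ e * a) :
    Real.log N - (3 + e * Real.log (k + 1)) ≤ Real.log a := by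
  have hN' : (0 : ℝ) < N := by exact_mod_cast hN
  have hk : (0 : ℝ) < (k : ℝ) + 1 := by positivity
  have ha : (0 : ℝ) < a := by
    have h1 : 0 < 16 * ((k : ℝ) + 1) ^ e * a := lt_of_lt_of_le hN' h
    exact pos_of_mul_pos_right h1 (by positivity)
  have h1 := Real.log_le_log hN' h
  rw [Real.log_mul (by positivity) ha.ne', Real.log_mul (by norm_num) (by positivity),
    Real.log_pow] at h1
  linarith [log16']

/-- `a + b log (k + 1) ≤ c √k` for large `k` -/
theorem ev_log {a b c : ℝ} (ha : 0 ≤ a) (hb : 0 ≤ b) (hc : 0 < c) :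
    ∀ᶠ k : ℕ in atTop, a + b * Real.log ((k : ℝ) + 1) ≤ c * √(k : ℝ) := by
  have ht : Tendsto (fun k : ℕ => √(√((k : ℝ) + 1))) atTop atTop := by
    refine Real.tendsto_sqrt_atTop.comp (Real.tendsto_sqrt_atTop.comp ?_)
    exact tendsto_atTop_add_const_right _ _ tendsto_natCast_atTop_atTop
  filter_upwards [ht.eventually_ge_atTop 1, ht.eventually_ge_atTop ((a + 4 * b + c) / c)]
    with k h1 h2
  set u : ℝ := √(√((k : ℝ) + 1)) with hu
  have hk0 : (0 : ℝ) ≤ k := Nat.cast_nonneg k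
  have hu2 : u ^ 2 = √((k : ℝ) + 1) := Real.sq_sqrt (Real.sqrt_nonneg _)
  have hu4 : u ^ 4 = (k : ℝ) + 1 := by
    have : u ^ 4 = (u ^ 2) ^ 2 := by ring
    rw [this, hu2, Real.sq_sqrt (by linarith)]
  have hlog : Real.log ((k : ℝ) + 1) ≤ 4 * u := by
    rw [← hu4, Real.log_pow]
    have := Real.log_le_sub_one_of_pos (show (0 : ℝ) < u by linarith)
    push_cast
    linarith
  have hsq : u ^ 2 - 1 ≤ √(k : ℝ) := by
    rw [hu2]
    have h3 : √((k : ℝ) + 1) ≤ √(k : ℝ) + 1 := by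
      rw [Real.sqrt_le_left (by positivity)]
      nlinarith [Real.sq_sqrt hk0, Real.sqrt_nonneg (k : ℝ)]
    linarith
  have h5 : a + 4 * b + c ≤ c * u := by
    rw [div_le_iff₀ hc] at h2
    linarith
  have h6 : (a + 4 * b + c) * u ≤ c * u * u := mul_le_mul_of_nonneg_right h5 (by linarith)
  have h7 : b * Real.log ((k : ℝ) + 1) ≤ b * (4 * u) := mul_le_mul_of_nonneg_left hlog hb
  have h8 : c * (u ^ 2 - 1) ≤ c * √(k : ℝ) := mul_le_mul_of_nonneg_left hsq hc.le
  have h9 : a ≤ a * u := le_mul_of_one_le_right ha h1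
  have h10 : c ≤ c * u := le_mul_of_one_le_right hc.le h1
  nlinarith

theorem cl8 (hRc2 : Rc2Stmt) (hLoc : LocStmt) (hOw2 : Ow2Stmt) (hRej : RejStmt) (hRob : RobStmt)
    (hIt8 : It8Stmt) : Cl8Stmt := by
  intro θ L hθ hθ1 hL
  -- s0
  obtain ⟨s0, hs0def⟩ : ∃ s0 : ℕ, s0 = ⌈4000 * L⌉₊ + 33 := ⟨_, rfl⟩
  have hs0L : 4000 * L + 33 ≤ (s0 : ℝ) := by
    rw [hs0def]
    push_cast
    linarith [Nat.le_ceil (4000 * L)]
  have hs0pos : (0 : ℝ) < s0 := by linarith
  have hlog0 : 1 ≤ Real.log s0 := by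
    have h1 : Real.exp 1 ≤ s0 := by linarith [Real.exp_one_lt_d9]
    exact (Real.le_log_iff_exp_le hs0pos).2 h1
  have hcR : 0 < 1 / (4 * Real.log s0) := by positivity
  have hcR1 : 1 / (4 * Real.log s0) ≤ 1 := by
    rw [div_le_one (by positivity)]
    linarith
  have hR1 : 1 ≤ 2 / θ := by
    rw [le_div_iff₀ hθ]
    linarith
  have hs02 : 2 ≤ s0 := by omega
  obtain ⟨lam, hlam, hlam1, hIt⟩ := hIt8 (θ / 4) (1 / (4 * Real.log s0)) (2 / θ) s0 (2 * s0 ^ 2)
    (by positivity) (by linarith) hcR hcR1 hR1 hs02 (by nlinarith)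
  obtain ⟨s1, hs1def⟩ : ∃ s1 : ℕ, s1 = ⌈960 * L / lam⌉₊ + 2 := ⟨_, rfl⟩
  have hs1L : 960 * L / lam + 2 ≤ (s1 : ℝ) := by
    rw [hs1def]
    push_cast
    linarith [Nat.le_ceil (960 * L / lam)]
  have hs1pos : (0 : ℝ) < s1 := by
    have : 0 ≤ 960 * L / lam := by positivity
    linarith
  have hs12 : 2 ≤ s1 := by omega
  obtain ⟨ρ, ν, N0, hρ, hρ1, hν, hν1, hN01, hIt⟩ := hIt (2 * s1 ^ 2)
  obtain ⟨σ, hσ, hσ1, hRo⟩ := hRob (2 * s0 ^ 2) ρ hρ hρ1
  have hρa : 0 < σ * ρ := by positivity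
  -- large k
  have hbig1 := ev_log (a := 3 + 6 / (σ * ρ) ^ 2 + Real.log (1 / σ))
    (b := (s0 : ℝ) ^ 2 + (s1 : ℝ) ^ 2) (c := ν / 2)
    (by
      have : 0 ≤ Real.log (1 / σ) := Real.log_nonneg (by rw [le_div_iff₀ hσ]; linarith)
      positivity) (by positivity) (by positivity)
  have hbig2 := ev_log (a := 0) (b := 1) (c := ν / 2) le_rfl zero_le_one (by positivity)
  have hbig3 := ev_log (a := N0) (b := 0) (c := 1 / 2) (by linarith) le_rfl (by positivity)
  have hbig4 := ev_log (a := 6) (b := 0) (c := 1 / 2) (by norm_num) le_rfl (by positivity)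
  obtain ⟨k₀, hk₀⟩ := eventually_atTop.1 (hbig1.and (hbig2.and (hbig3.and hbig4)))
  refine ⟨s0, s1, by omega, by omega, k₀, ?_⟩
  intro k hk V _ c W hsym hNo3 h8 hFl0 hFl1 hpal hsqrt hWn
  obtain ⟨hb1, hb2, hb3, hb4⟩ := hk₀ k hk
  obtain ⟨U, hUW, hRec, hWU, hpalU⟩ := hRc2 V k c W θ hθ hWn hpal
  have hNk : √(k : ℝ) / 2 ≤ Real.log U.card := by linarith
  set N : ℝ := Real.log U.card with hN
  have hN6 : 6 ≤ N := by linarith
  have hNN0 : N0 ≤ N := by linarith
  have hlogk1 : Real.log ((k : ℝ) + 1) ≤ ν * N := by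
    have h1 : ν * (√(k : ℝ) / 2) ≤ ν * N := mul_le_mul_of_nonneg_left hNk hν.le
    linarith
  have hlogk : Real.log (k : ℝ) ≤ ν * N := by
    rcases Nat.eq_zero_or_pos k with h0 | h0
    · rw [h0, Nat.cast_zero, Real.log_zero]
      have : 0 ≤ ν * N := by positivity
      exact this
    · have h1 : Real.log (k : ℝ) ≤ Real.log ((k : ℝ) + 1) :=
        Real.log_le_log (by exact_mod_cast h0) (by linarith)
      linarith
  have hU16 : 16 ≤ U.card := by
    by_contra hcon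
    have h1 : U.card ≤ 16 := by omega
    have h2 : Real.log U.card ≤ 3 := by
      rcases Nat.eq_zero_or_pos U.card with h0 | h0
      · rw [h0, Nat.cast_zero, Real.log_zero]
        norm_num
      · have h3 : (U.card : ℝ) ≤ 16 := by exact_mod_cast h1
        exact (Real.log_le_log (by exact_mod_cast h0) h3).trans log16'
    linarith
  have hUpos : 0 < U.card := by omega
  have hUpos' : (0 : ℝ) < U.card := by exact_mod_cast hUpos
  -- Flat and No3 for U
  have hFlU0 : Flat c U s0 (L * s0) := fun S hS hc => hFl0 S (hS.trans hUW) hc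
  have hFlU1 : Flat c U s1 (L * s1) := fun S hS hc => hFl1 S (hS.trans hUW) hc
  have hNo3U : No3 c U := fun x hx y hy z hz => hNo3 x (hUW hx) y (hUW hy) z (hUW hz)
  -- many colours at a vertex
  have hloc := hLoc V k c U s0 L hsym hNo3U hFlU0 hL (by linarith)
  have hsmax : 1 / (4 * Real.log s0) * N ≤ smax c U := by
    rw [Real.log_pow] at hloc
    push_cast at hloc
    have hl : 0 < Real.log s0 := by linarith
    rw [div_mul_eq_mul_div, one_mul, div_le_iff₀ (by positivity)]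
    nlinarith
  -- two classes
  obtain ⟨A, B, C0, C1, hAU, hBU, hdis, hC0, hC1, hA, hB, hex0, hex1⟩ :=
    hOw2 V k c U s0 s1 L hsym hFlU0 hFlU1 (by linarith) hs02 hs12 hU16
  have hne : ∀ S : Finset V, (U.card : ℝ) ≤ 16 * ((k : ℝ) + 1) ^ (s0 ^ 2 + s1 ^ 2) * S.card →
      S.Nonempty := by
    intro S hS
    rw [← Finset.card_pos]
    by_contra hcon
    have h0 : S.card = 0 := by omega
    rw [h0, Nat.cast_zero, mul_zero] at hS
    linarith
  have hAn := hne A hA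
  have hBn := hne B hB
  have hlog : ∀ S : Finset V, (U.card : ℝ) ≤ 16 * ((k : ℝ) + 1) ^ (s0 ^ 2 + s1 ^ 2) * S.card →
      N - (3 + ((s0 : ℝ) ^ 2 + (s1 : ℝ) ^ 2) * Real.log (k + 1)) ≤ Real.log S.card := by
    intro S hS
    have h1 := log_bound' hUpos hS
    push_cast at h1
    exact h1
  have hκ0 : 0 < 320 * L / s0 := by positivity
  have hκ1 : 0 < 320 * L / s1 := by positivity
  obtain ⟨A1, hA1, B1, hB1, hA1n, hB1n, hA1l, hB1l, hReg0, hReg1⟩ :=
    hRej V k c C0 C1 A B (320 * L / s0) (320 * L / s1) (σ * ρ) hAn hBn hκ0 hκ1 hρa hex0 hex1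
  have hκ0' : 3 * (320 * L / s0) ≤ 1 / 4 := by
    rw [← mul_div_assoc, div_le_iff₀ hs0pos]
    linarith
  have hκ1' : 3 * (320 * L / s1) ≤ lam := by
    rw [← mul_div_assoc, div_le_iff₀ hs1pos]
    have h1 : 960 * L / lam ≤ s1 := by linarith
    rw [div_le_iff₀ hlam] at h1
    linarith
  have hσρ : σ * ρ ≤ σ := mul_le_of_le_one_right hσ.le hρ1
  have hRegA : Reg c C0 A1 B1 (1 / 4) σ := by
    intro A' hA' B' hB' h1 h2
    have h3 := hReg0 A' hA' B' hB'
      ((mul_le_mul_of_nonneg_right hσρ (Nat.cast_nonneg _)).trans h1)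
      ((mul_le_mul_of_nonneg_right hσρ (Nat.cast_nonneg _)).trans h2)
    exact h3.trans (mul_le_mul_of_nonneg_right hκ0' (by positivity))
  obtain ⟨e, heC, A2, hA2, B2, hB2, hA2n, hB2n, hA2c, hB2c, hRobe⟩ :=
    hRo V k c C0 A1 B1 hC0 hA1n hB1n hRegA
  have hRegB : Reg c C1 A2 B2 lam ρ := by
    intro A' hA' B' hB' h1 h2
    have h3 := hReg1 A' (hA'.trans hA2) B' (hB'.trans hB2)
      (by
        have h4 : ρ * (σ * A1.card) ≤ ρ * A2.card := mul_le_mul_of_nonneg_left hA2c hρ.le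
        calc σ * ρ * (A1.card : ℝ) = ρ * (σ * A1.card) := by ring
          _ ≤ _ := h4.trans h1)
      (by
        have h4 : ρ * (σ * B1.card) ≤ ρ * B2.card := mul_le_mul_of_nonneg_left hB2c hρ.le
        calc σ * ρ * (B1.card : ℝ) = ρ * (σ * B1.card) := by ring
          _ ≤ _ := h4.trans h2)
    exact h3.trans (mul_le_mul_of_nonneg_right hκ1' (by positivity))
  -- sizes
  have hsize : ∀ (S S1 S2 : Finset V),
      (U.card : ℝ) ≤ 16 * ((k : ℝ) + 1) ^ (s0 ^ 2 + s1 ^ 2) * S.card → S1.Nonempty →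
      Real.log S.card - 6 / (σ * ρ) ^ 2 ≤ Real.log S1.card → σ * S1.card ≤ (S2.card : ℝ) →
      (1 - ν) * N ≤ Real.log S2.card := by
    intro S S1 S2 hS hS1 h1 h2
    have h3 := hlog S hS
    have hS1pos : (0 : ℝ) < S1.card := by exact_mod_cast Finset.card_pos.2 hS1
    have h4 : Real.log (σ * S1.card) ≤ Real.log S2.card :=
      Real.log_le_log (by positivity) h2
    rw [Real.log_mul hσ.ne' hS1pos.ne'] at h4
    have h5 : Real.log (1 / σ) = - Real.log σ := by
      rw [one_div, Real.log_inv]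
    have h6 : ν / 2 * √(k : ℝ) ≤ ν * N := by
      have := mul_le_mul_of_nonneg_left hNk hν.le
      linarith
    rw [h5] at hb1
    linarith
  obtain ⟨Q, hQU, hQ8, hQ6⟩ := hIt V k c U A2 B2 C1 e L hsym hRec hpalU hsmax hL (by linarith)
    hFlU0 (hA2.trans (hA1.trans hAU)) (hB2.trans (hB1.trans hBU))
    (Finset.disjoint_of_subset_left (hA2.trans hA1)
      (Finset.disjoint_of_subset_right (hB2.trans hB1) hdis))
    (hsize A A1 A2 hA hA1n hA1l hA2c) (hsize B B1 B2 hB hB1n hB1l hB2c) hlogk hNN0 hC1 hRobe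
    hRegB
  have h7 := h8 Q (hQU.trans hUW) hQ8
  omega

end Pool.Agent.EGF.H68
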