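import Pool.Agent.EGF.Stmts

/-!
# Squad EGF, row ENT: intersection of nearly all sets of a large family
-/

set_option autoImplicit false

open Finset

namespace Pool.Agent.EGF.H68

theorem ent : EntStmt := by
  classical
  intro V _ I _ Γ B S κ hκ hB hS
  set miss : V → Finset I := fun y => Γ.filter fun i => y ∉ S i with hmiss
  have hBpos : (0:ℝ) < B.card := by exact_mod_cast hB.card_pos
  -- double counting
  have hdc : ∑ y ∈ B, ((miss y).card : ℝ) ≤ κ * Γ.card * B.card := by
    have h1 : ∑ y ∈ B, ((miss y).card : ℝ) = ∑ i ∈ Γ, ((B.filter fun y => y ∉ S i).card : ℝ) := by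
      have : ∑ y ∈ B, (miss y).card = ∑ i ∈ Γ, (B.filter fun y => y ∉ S i).card :=
        sum_card_bipartiteAbove_eq_sum_card_bipartiteBelow (fun y i => y ∉ S i)
      exact_mod_cast this
    rw [h1]
    have h2 : ∀ i ∈ Γ, ((B.filter fun y => y ∉ S i).card : ℝ) ≤ κ * B.card := by
      intro i hi
      have h3 := hS i hi
      have h4 : (B ∩ S i).card + (B.filter fun y => y ∉ S i).card = B.card := by
        rw [← filter_mem_eq_inter]
        exact card_filter_add_card_filter_not (s := B) (fun y => y ∈ S i)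
      have h5 : ((B ∩ S i).card : ℝ) + (B.filter fun y => y ∉ S i).card = B.card := by
        exact_mod_cast h4
      nlinarith
    calc _ ≤ ∑ i ∈ Γ, κ * (B.card:ℝ) := sum_le_sum h2
      _ = _ := by rw [sum_const, nsmul_eq_mul]; ring
  set B1 := B.filter fun y => ((miss y).card : ℝ) ≤ 2 * κ * Γ.card with hB1
  have hhalf : (B.card : ℝ) / 2 ≤ B1.card := by
    by_cases hΓ : Γ.card = 0
    · have : B1 = B := by
        rw [hB1]
        apply filter_true_of_mem
        intro y _
        have h6 : (miss y).card ≤ Γ.card := card_le_card (filter_subset _ _)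
        have h7 : (miss y).card = 0 := by omega
        rw [h7, hΓ]
        simp
      rw [this]
      linarith
    · have hΓ' : (0:ℝ) < Γ.card := by
        have : 0 < Γ.card := Nat.pos_of_ne_zero hΓ
        exact_mod_cast this
      set B2 := B.filter fun y => ¬ ((miss y).card : ℝ) ≤ 2 * κ * Γ.card with hB2
      have h8 : B1.card + B2.card = B.card :=
        card_filter_add_card_filter_not (s := B) (fun y => ((miss y).card : ℝ) ≤ 2 * κ * Γ.card)
      have h8' : (B1.card : ℝ) + B2.card = B.card := by exact_mod_cast h8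
      have h9 : (B2.card : ℝ) * (2 * κ * Γ.card) ≤ κ * Γ.card * B.card := by
        calc (B2.card : ℝ) * (2 * κ * Γ.card) = ∑ y ∈ B2, (2 * κ * Γ.card : ℝ) := by
              rw [sum_const, nsmul_eq_mul]
          _ ≤ ∑ y ∈ B2, ((miss y).card : ℝ) := by
              apply sum_le_sum
              intro y hy
              have := (mem_filter.1 hy).2
              exact (not_le.1 this).le
          _ ≤ ∑ y ∈ B, ((miss y).card : ℝ) :=
              sum_le_sum_of_subset_of_nonneg (filter_subset _ _) fun _ _ _ => Nat.cast_nonneg _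
          _ ≤ _ := hdc
      have h10 : (0:ℝ) < κ * Γ.card := mul_pos hκ hΓ'
      have h11 : (B2.card : ℝ) * 2 ≤ B.card := by
        have : (κ * Γ.card : ℝ) * ((B2.card : ℝ) * 2) ≤ (κ * Γ.card) * B.card := by nlinarith
        exact le_of_mul_le_mul_left this h10
      linarith
  -- number of small sets
  set T := Γ.powerset.filter fun Z => ((Z.card : ℝ)) ≤ 2 * κ * Γ.card with hT
  have hTne : T.Nonempty := by
    refine ⟨∅, ?_⟩
    rw [hT, mem_filter]
    refine ⟨empty_mem_powerset _, ?_⟩
    simp only [card_empty, Nat.cast_zero]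
    positivity
  have hTpos : (0:ℝ) < T.card := by exact_mod_cast hTne.card_pos
  have hTcard : (T.card : ℝ) ≤ Real.exp (3 * √κ * Γ.card) := by
    have hsq : 0 < √κ := Real.sqrt_pos.2 hκ
    have hlam : (1 / √κ) * κ = √κ := by
      have : κ = √κ * √κ := (Real.mul_self_sqrt hκ.le).symm
      nth_rewrite 2 [this]
      field_simp
    have hexp : Real.exp (-(1 / √κ)) ≤ √κ := by
      have h12 : 1 / √κ ≤ Real.exp (1 / √κ) := by
        have := Real.add_one_le_exp (1 / √κ)
        linarith
      rw [Real.exp_neg]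
      have h13 : 0 < 1 / √κ := by positivity
      calc (Real.exp (1 / √κ))⁻¹ ≤ (1 / √κ)⁻¹ := inv_anti₀ h13 h12
        _ = √κ := by simp
    calc (T.card : ℝ) = ∑ _Z ∈ T, (1:ℝ) := by simp
      _ ≤ ∑ Z ∈ T, Real.exp ((1 / √κ) * (2 * κ * Γ.card)) *
            (Real.exp (-(1 / √κ)) ^ Z.card * (1:ℝ) ^ (Γ.card - Z.card)) := by
          apply sum_le_sum
          intro Z hZ
          have h14 := (mem_filter.1 hZ).2
          rw [one_pow, mul_one, ← Real.exp_nat_mul, ← Real.exp_add]
          apply Real.one_le_exp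
          have h15 : 0 < 1 / √κ := by positivity
          nlinarith
      _ ≤ ∑ Z ∈ Γ.powerset, Real.exp ((1 / √κ) * (2 * κ * Γ.card)) *
            (Real.exp (-(1 / √κ)) ^ Z.card * (1:ℝ) ^ (Γ.card - Z.card)) :=
          sum_le_sum_of_subset_of_nonneg (filter_subset _ _) fun _ _ _ => by positivity
      _ = Real.exp ((1 / √κ) * (2 * κ * Γ.card)) * (Real.exp (-(1 / √κ)) + 1) ^ Γ.card := by
          rw [← mul_sum, sum_pow_mul_eq_add_pow]
      _ ≤ Real.exp ((1 / √κ) * (2 * κ * Γ.card)) * Real.exp (√κ) ^ Γ.card := by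
          apply mul_le_mul_of_nonneg_left _ (Real.exp_pos _).le
          apply pow_le_pow_left₀ (by positivity)
          calc Real.exp (-(1 / √κ)) + 1 ≤ √κ + 1 := by linarith
            _ ≤ _ := Real.add_one_le_exp _
      _ = Real.exp (3 * √κ * Γ.card) := by
          rw [← Real.exp_nat_mul, ← Real.exp_add]
          congr 1
          have : (1 / √κ) * (2 * κ * Γ.card) = 2 * ((1 / √κ) * κ) * Γ.card := by ring
          rw [this, hlam]
          ring
  -- pigeonhole
  have hmaps : ∀ y ∈ B1, miss y ∈ T := by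
    intro y hy
    rw [hT, mem_filter]
    exact ⟨mem_powerset.2 (filter_subset _ _), (mem_filter.1 hy).2⟩
  obtain ⟨Z, hZ, hfib⟩ := exists_le_card_fiber_of_nsmul_le_card_of_maps_to
    (M := ℝ) (b := (B1.card : ℝ) / T.card) hmaps hTne (by
      rw [nsmul_eq_mul]
      field_simp
      exact le_rfl)
  have hZ' := mem_filter.1 hZ
  have hB1pos : (0:ℝ) < B1.card := by linarith
  have hWpos : (0:ℝ) < ((B1.filter fun y => miss y = Z).card : ℝ) :=
    lt_of_lt_of_le (by positivity) hfib
  refine ⟨Z, mem_powerset.1 hZ'.1, B1.filter fun y => miss y = Z,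
    (filter_subset _ _).trans (filter_subset _ _), ?_, hZ'.2, ?_, ?_⟩
  · exact card_pos.1 (by exact_mod_cast hWpos)
  · intro i hi y hy
    have h16 := (mem_filter.1 hy).2
    by_contra hcon
    have : i ∈ miss y := by
      rw [hmiss]
      exact mem_filter.2 ⟨(mem_sdiff.1 hi).1, hcon⟩
    rw [h16] at this
    exact (mem_sdiff.1 hi).2 this
  · have h17 : (B.card : ℝ) / 2 * Real.exp (-(3 * √κ * Γ.card)) ≤
        ((B1.filter fun y => miss y = Z).card : ℝ) := by
      refine le_trans ?_ hfib
      rw [le_div_iff₀ hTpos]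
      calc (B.card : ℝ) / 2 * Real.exp (-(3 * √κ * Γ.card)) * T.card
          ≤ (B.card : ℝ) / 2 * Real.exp (-(3 * √κ * Γ.card)) * Real.exp (3 * √κ * Γ.card) := by
            apply mul_le_mul_of_nonneg_left hTcard
            positivity
        _ = (B.card : ℝ) / 2 := by
            rw [mul_assoc, ← Real.exp_add]
            simp
        _ ≤ _ := hhalf
    have h18 : Real.log ((B.card : ℝ) / 2 * Real.exp (-(3 * √κ * Γ.card))) ≤
        Real.log ((B1.filter fun y => miss y = Z).card : ℝ) :=
      Real.log_le_log (by positivity) h17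
    rw [Real.log_mul (by positivity) (Real.exp_pos _).ne', Real.log_exp,
      Real.log_div hBpos.ne' (by norm_num)] at h18
    have h19 := Real.log_two_lt_d9
    linarith

end Pool.Agent.EGF.H68
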