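import Pool.Agent.EGF.Stmts

/-!
# Squad EGF, row STP: one step of the bootstrapping
-/

set_option autoImplicit false

open Finset

namespace Pool.Agent.EGF.H68

theorem stp (hrec : RecStmt) (hmaj : MajStmt) (hflt : FltStmt) : StpStmt := by
  classical
  intro V _ k c W β γ ε L s s' hsym hno hβ hγ hγ4 hε hε4 hL hLs hs' hW hflat hβW hsize
  have hθ0 : 0 < (1 - γ) * β := mul_pos (by linarith) hβ
  obtain ⟨U, hUW, hRec, hU⟩ := hrec V k c W ((1 - γ) * β) hW
  have hlogk : 0 ≤ Real.log k := Real.log_natCast_nonneg k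
  have hlogs : 0 ≤ Real.log s := Real.log_natCast_nonneg s
  have hlogW : 0 ≤ Real.log W.card := Real.log_natCast_nonneg _
  have hs33 : (33:ℝ) ≤ s := by linarith
  have hs0 : (0:ℝ) < s := by linarith
  -- log |U| is large
  have hUγ : γ * Real.log W.card + (1 - γ) * β * (pal c U).card ≤ Real.log U.card := by
    have h1 : (1 - γ) * (β * (pal c W).card) ≤ (1 - γ) * Real.log W.card :=
      mul_le_mul_of_nonneg_left hβW (by linarith)
    nlinarith
  have hpal0 : (0:ℝ) ≤ (1 - γ) * β * (pal c U).card := by positivity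
  have hUγ1 : γ * Real.log W.card ≤ Real.log U.card := by linarith
  have hUθ : (1 - γ) * β * (pal c U).card ≤ Real.log U.card := by
    have : 0 ≤ γ * Real.log W.card := mul_nonneg hγ.le hlogW
    linarith
  have hlogU0 : 0 ≤ Real.log U.card := Real.log_natCast_nonneg _
  have hεU : Real.log k + 8 * Real.log s + 8 ≤ ε * Real.log U.card := by
    calc _ ≤ ε * γ * Real.log W.card := hsize
      _ = ε * (γ * Real.log W.card) := by ring
      _ ≤ _ := mul_le_mul_of_nonneg_left hUγ1 hε.le
  have hU32 : 32 ≤ Real.log U.card := by nlinarith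
  have hUcardpos : (0:ℝ) < U.card := by
    have : 0 < U.card := by
      rcases Nat.eq_zero_or_pos U.card with h | h
      · rw [h] at hU32
        simp at hU32
        linarith
      · exact h
    exact_mod_cast this
  have hU8 : 8 ≤ U.card := by
    have h2 : (33:ℝ) ≤ U.card := by
      calc (33:ℝ) ≤ Real.log U.card + 1 := by linarith
        _ ≤ Real.exp (Real.log U.card) := Real.add_one_le_exp _
        _ = U.card := Real.exp_log hUcardpos
    have : 33 ≤ U.card := by exact_mod_cast h2
    omega
  have hUne : U.Nonempty := hRec.1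
  have hk : 0 < k := by
    obtain ⟨x, _⟩ := hUne
    exact lt_of_le_of_lt (Nat.zero_le _) (c x x).isLt
  have hk0 : (0:ℝ) < k := by exact_mod_cast hk
  haveI : Nonempty (Fin k) := ⟨⟨0, hk⟩⟩
  have hflatU : Flat c U s (L * s) := fun S hS hc => hflat S (hS.trans hUW) hc
  have hM := hmaj V k c U s L hsym hflatU hL hLs hU8
  have hMpos : (0:ℝ) < (maj c U (1 / (s : ℝ) ^ 2)).card := by linarith
  -- choose a colour for every element of maj
  have hch : ∀ x, ∃ a : Fin k, x ∈ maj c U (1 / (s : ℝ) ^ 2) →
      1 / (s : ℝ) ^ 2 * U.card ≤ ((nb c U a x).card : ℝ) := by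
    intro x
    by_cases hx : x ∈ maj c U (1 / (s : ℝ) ^ 2)
    · have hx2 := hx
      unfold maj at hx2
      obtain ⟨a, ha⟩ := (mem_filter.1 hx2).2
      exact ⟨a, fun _ => ha⟩
    · exact ⟨⟨0, hk⟩, fun h => absurd h hx⟩
  choose g hg using hch
  obtain ⟨a, _, ha⟩ := exists_le_card_fiber_of_nsmul_le_card_of_maps_to
    (M := ℝ) (s := maj c U (1 / (s : ℝ) ^ 2)) (t := (univ : Finset (Fin k))) (f := g)
    (b := ((maj c U (1 / (s : ℝ) ^ 2)).card : ℝ) / k)
    (fun x _ => mem_univ _) univ_nonempty (by
      rw [nsmul_eq_mul, card_univ, Fintype.card_fin]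
      field_simp
      exact le_rfl)
  set X := (maj c U (1 / (s : ℝ) ^ 2)).filter fun x => g x = a with hX
  have hXcard : (U.card : ℝ) / (4 * k) ≤ X.card := by
    refine le_trans ?_ ha
    rw [div_le_div_iff₀ (by positivity) hk0]
    nlinarith
  have hXpos : (0:ℝ) < X.card := lt_of_lt_of_le (by positivity) hXcard
  have hXne : X.Nonempty := card_pos.1 (by exact_mod_cast hXpos)
  have hXU : X ⊆ U := by
    refine (filter_subset _ _).trans ?_
    unfold maj
    exact filter_subset _ _
  have hXa : ∀ x ∈ X, 1 / (s : ℝ) ^ 2 * U.card ≤ ((nb c U a x).card : ℝ) := by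
    intro x hx
    have h3 := mem_filter.1 hx
    have h4 := hg x h3.1
    rw [h3.2] at h4
    exact h4
  have hnoU : No4 c U := by
    intro x hx x' hx' y hy y' hy'
    exact hno x (hUW hx) x' (hUW hx') y (hUW hy) y' (hUW hy')
  have ht0 : (0:ℝ) < 1 / (s : ℝ) ^ 2 := by positivity
  have ht2 : 1 / (s : ℝ) ^ 2 ≤ 1 / 2 := by
    apply one_div_le_one_div_of_le (by norm_num)
    nlinarith
  obtain ⟨X', hX'X, hX'ne, hX'flat, hX'log⟩ := hflt V k c U X a ((1 - γ) * β) (1 / (s : ℝ) ^ 2) ε s'
    hnoU hRec hθ0 hXU hXne ht0 ht2 hε (by linarith) hs' hXa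
  have hlogt : Real.log (1 / (1 / (s : ℝ) ^ 2)) = 2 * Real.log s := by
    rw [one_div_one_div, Real.log_pow]
    push_cast
    ring
  rw [hlogt] at hX'flat hX'log
  have hlogX : Real.log U.card - Real.log k - 2 ≤ Real.log X.card := by
    have h5 : Real.log ((U.card : ℝ) / (4 * k)) ≤ Real.log X.card :=
      Real.log_le_log (by positivity) hXcard
    rw [Real.log_div hUcardpos.ne' (by positivity), Real.log_mul (by norm_num) hk0.ne'] at h5
    have h6 : Real.log 4 ≤ 2 := by
      have h7 := Real.log_two_lt_d9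
      have h8 : Real.log 4 = 2 * Real.log 2 := by
        rw [show (4:ℝ) = 2 ^ 2 by norm_num, Real.log_pow]
        push_cast
        ring
      rw [h8]
      linarith
    linarith
  have hmain : (1 - 2 * ε) * Real.log U.card ≤ Real.log X'.card := by
    have h9 : (1 - ε) * (Real.log U.card - Real.log k - 2) ≤ (1 - ε) * Real.log X.card :=
      mul_le_mul_of_nonneg_left hlogX (by linarith)
    nlinarith
  refine ⟨X', (hX'X.trans hXU).trans hUW, hX'ne, hX'flat, ?_, ?_⟩
  · have h10 : ((pal c X').card : ℝ) ≤ (pal c U).card := by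
      have : (pal c X').card ≤ (pal c U).card := by
        apply card_le_card
        unfold pal
        apply image_subset_image
        apply filter_subset_filter
        exact product_subset_product (hX'X.trans hXU) (hX'X.trans hXU)
      exact_mod_cast this
    calc (1 - 2 * ε) * (1 - γ) * β * (pal c X').card
        = (1 - 2 * ε) * ((1 - γ) * β * (pal c X').card) := by ring
      _ ≤ (1 - 2 * ε) * ((1 - γ) * β * (pal c U).card) := by
          apply mul_le_mul_of_nonneg_left _ (by linarith)
          exact mul_le_mul_of_nonneg_left h10 hθ0.le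
      _ ≤ (1 - 2 * ε) * Real.log U.card := mul_le_mul_of_nonneg_left hUθ (by linarith)
      _ ≤ _ := hmain
  · have h11 : (1 / 2) * Real.log U.card ≤ (1 - 2 * ε) * Real.log U.card :=
      mul_le_mul_of_nonneg_right (by linarith) hlogU0
    linarith

end Pool.Agent.EGF.H68
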